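import Pool.Agent.Y771.RP.Rel
import Pool.Agent.TH818.AP.Beta
import Pool.Agent.TH818.AP.Api

/-!
# Periods of Fermat curves
-/

set_option autoImplicit false

open Set Filter Topology MvPolynomial NumberField

namespace Pool.Agent.Y771.RP

open Pool.Agent.TH818.AP

/-- `B(t, ρ)` for complex `t` -/
noncomputable def fB (ρ : ℝ) (t : ℂ) : ℂ := Complex.Gamma t * Complex.Gamma ρ / Complex.Gamma (t + ρ)

theorem fB_an {ρ : ℝ} (_hρ : 0 < ρ) {t : ℂ} (ht : 0 < t.re) : AnalyticAt ℂ (fB ρ) t := by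
  have hp : ∀ k : ℕ, t ≠ -k := by
    intro k hk
    have h1 := congrArg Complex.re hk
    simp at h1
    have : (0 : ℝ) ≤ k := Nat.cast_nonneg k
    linarith
  have h1 : AnalyticAt ℂ (fun t : ℂ => (Complex.Gamma (t + ρ))⁻¹) t :=
    AnalyticAt.fun_comp (g := fun s => (Complex.Gamma s)⁻¹) (f := fun t : ℂ => t + ρ) (inv_Gamma_analyticAt _)
      (analyticAt_id.add analyticAt_const)
  have h2 : AnalyticAt ℂ (fun t : ℂ => Complex.Gamma t * Complex.Gamma ρ * (Complex.Gamma (t + ρ))⁻¹) t :=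
    ((Gamma_analyticAt hp).mul analyticAt_const).mul h1
  exact h2

theorem fB_real (ρ t : ℝ) : fB ρ (t : ℂ) = ((Bt ρ t : ℝ) : ℂ) := by
  unfold fB Bt
  push_cast
  rw [← Complex.Gamma_ofReal, ← Complex.Gamma_ofReal, ← Complex.Gamma_ofReal]
  push_cast
  rfl

theorem fB_locInd {s : ℕ} (ρ : Fin s → ℝ) (hρ : ∀ i, 0 < ρ i) (h1 : ∀ i, ∀ z : ℤ, ρ i ≠ z)
    (h2 : ∀ i k, i ≠ k → ∀ z : ℤ, ρ i - ρ k ≠ z) :
    ∀ t ∈ {t : ℂ | 0 < t.re}, Y124.LocInd (fun i => fB (ρ i)) t := by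
  refine locInd_of (fun i => fB (ρ i)) {t : ℂ | 0 < t.re} (convex_halfSpace_re_gt 0).isPreconnected
    (fun i t ht => fB_an (hρ i) ht) fun P hP => ?_
  refine ind_of_real (fun i => fB (ρ i)) (fun i t => Bt (ρ i) t) (Icc 1 2) ?_ ?_ P ?_
  · intro y t ht
    exact fB_real _ _
  · intro Q hQ
    refine mv_of_exp (fun i t => Bt (ρ i) t) (Icc 1 2) (fun d p hp => ?_) Q hQ
    exact beta s d ρ 1 2 hρ h1 h2 one_pos one_lt_two p hp
  · intro t ht
    apply hP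
    change 0 < ((t : ℝ) : ℂ).re
    rw [Complex.ofReal_re]
    linarith [ht.1]

/-- the theorem for rational numbers -/
theorem ferm_main (k n m g d : ℕ) (ρ : Fin m → ℝ) (hρ : ∀ i, 0 < ρ i) (h1 : ∀ i, ∀ z : ℤ, ρ i ≠ z)
    (h2 : ∀ i k, i ≠ k → ∀ z : ℤ, ρ i - ρ k ≠ z) (a b : ℝ) (ha : 0 < a) (A ε : ℝ) (hε : 0 < ε) :
    ∃ R C T₀ : ℝ, 0 ≤ C ∧ ∀ (F : Type) [Field F] [NumberField F], Module.finrank ℚ F ≤ k →
      ∀ (ι : F →+* ℂ) (ξ : Fin g → ℂ) (T : ℝ), T₀ ≤ T → ∀ X : Finset ℚ,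
        (∀ x ∈ X, a ≤ (x : ℝ) ∧ (x : ℝ) ≤ b ∧ (x.den : ℝ) ≤ T) →
        (({q : Fin n → ℚ | (∀ j, q j ∈ X) ∧ ∃ P : MvPolynomial (Fin n × Fin m) ℂ, (∀ x, P.degreeOf x ≤ d) ∧
          (∀ s, ∃ c : Fin g → 𝓞 F, (∀ i (φ : F →+* ℂ), ‖φ (c i)‖ ≤ T ^ A) ∧ P.coeff s = ∑ i, ξ i * ι (c i)) ∧
          ∃ s₀, P.coeff s₀ ≠ 0 ∧ ‖MvPolynomial.aeval (fun x : Fin n × Fin m => ((Bt (ρ x.2) (q x.1) : ℝ) : ℂ)) P‖ ≤
            T ^ (-R) * ‖P.coeff s₀‖}.ncard : ℕ) : ℝ) ≤ C * T ^ ε * (X.card : ℝ) ^ (n - 1) := by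
  classical
  set L : Set ℂ := (fun x : ℝ => (x : ℂ)) '' Icc a b with hL
  have hLc : IsCompact L := isCompact_Icc.image Complex.continuous_ofReal
  have hLre : ∀ t ∈ L, 0 < t.re := by
    rintro _ ⟨x, hx, rfl⟩
    change 0 < ((x : ℝ) : ℂ).re
    rw [Complex.ofReal_re]
    exact ha.trans_le hx.1
  obtain ⟨B, C, T₀, hC, hT₀, H⟩ := mainS k n g d (fun i => fB (ρ i)) L hLc (fun i t ht => fB_an (hρ i) (hLre t ht))
    (fun t ht => fB_locInd ρ hρ h1 h2 t (hLre t ht)) (max A 0) ε hε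
  set M : ℝ := max 1 b with hM
  have hM1 : 1 ≤ M := le_max_left _ _
  refine ⟨2 * |B|, C * M ^ ε, max T₀ M, by positivity, fun F _ _ hF ι ξ T hT X hX => ?_⟩
  have hTT₀ : T₀ ≤ T := (le_max_left _ _).trans hT
  have hTM : M ≤ T := (le_max_right _ _).trans hT
  have hT0 : 0 < T := by linarith
  have hT1 : 1 ≤ T := hM1.trans hTM
  have hMT : T ≤ M * T := le_mul_of_one_le_left hT0.le hM1
  have hinj : Function.Injective (fun q : ℚ => (q : F)) := fun x y h => Rat.cast_injective h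
  have h3 := H F hF ι ξ (M * T) (hTT₀.trans hMT) (X.image fun q : ℚ => (q : F)) (by
    intro x hx
    obtain ⟨q, hq, rfl⟩ := Finset.mem_image.1 hx
    obtain ⟨h4, h5, h6⟩ := hX q hq
    refine ⟨⟨(q : ℝ), ⟨h4, h5⟩, ?_⟩, ((q.num : ℤ) : 𝓞 F), ((q.den : ℕ) : 𝓞 F), ?_, ?_, ?_⟩
    · rw [map_ratCast]
      push_cast
      rfl
    · exact_mod_cast q.den_ne_zero
    · intro φ
      have e1 : ((((q.num : ℤ) : 𝓞 F)) : F) = ((q.num : ℤ) : F) := by push_cast; rfl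
      have e2 : ((((q.den : ℕ) : 𝓞 F)) : F) = ((q.den : ℕ) : F) := by push_cast; rfl
      rw [e1, e2, map_intCast, map_natCast, Complex.norm_intCast, Complex.norm_natCast]
      constructor
      · have e3 : (q : ℝ) = q.num / q.den := by exact_mod_cast (Rat.num_div_den q).symm
        have e4 : (0 : ℝ) < q.den := by exact_mod_cast q.den_pos
        have e5 : (q.num : ℝ) = q * q.den := by rw [e3]; field_simp
        have e6 : 0 < (q : ℝ) := ha.trans_le h4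
        rw [e5, abs_of_pos (mul_pos e6 e4)]
        exact mul_le_mul (h5.trans (le_max_right _ _)) h6 e4.le (by linarith)
      · exact h6.trans hMT
    · have e1 : ((((q.num : ℤ) : 𝓞 F)) : F) = ((q.num : ℤ) : F) := by push_cast; rfl
      have e2 : ((((q.den : ℕ) : 𝓞 F)) : F) = ((q.den : ℕ) : F) := by push_cast; rfl
      rw [e1, e2]
      exact_mod_cast (congrArg (fun q : ℚ => (q : F)) (Rat.num_div_den q)).symm)
  rw [Finset.card_image_of_injective _ hinj] at h3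
  set E : Set (Fin n → ℚ) := {q : Fin n → ℚ | (∀ j, q j ∈ X) ∧ ∃ P : MvPolynomial (Fin n × Fin m) ℂ,
          (∀ x, P.degreeOf x ≤ d) ∧
          (∀ s, ∃ c : Fin g → 𝓞 F, (∀ i (φ : F →+* ℂ), ‖φ (c i)‖ ≤ T ^ A) ∧ P.coeff s = ∑ i, ξ i * ι (c i)) ∧
          ∃ s₀, P.coeff s₀ ≠ 0 ∧ ‖MvPolynomial.aeval (fun x : Fin n × Fin m => ((Bt (ρ x.2) (q x.1) : ℝ) : ℂ)) P‖ ≤
            T ^ (-(2 * |B|)) * ‖P.coeff s₀‖} with hE
  set G : Set (Fin n → F) := {t | t ∈ Exc n d F ι ξ (fun _ i => fB (ρ i)) (fun _ => L) (max A 0) B (M * T) ∧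
    ∀ j, t j ∈ X.image fun q : ℚ => (q : F)} with hG
  have hGf : G.Finite := by
    refine (Finset.finite_toSet (Fintype.piFinset fun _ : Fin n => X.image fun q : ℚ => (q : F))).subset ?_
    intro t ht
    rw [Finset.mem_coe, Fintype.mem_piFinset]
    exact ht.2
  have hpow : T ^ (-(2 * |B|)) ≤ (M * T) ^ (-B) := by
    have e1 : (M * T) ^ (-|B|) ≤ (M * T) ^ (-B) :=
      Real.rpow_le_rpow_of_exponent_le (by nlinarith) (neg_le_neg (le_abs_self B))
    refine le_trans ?_ e1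
    have e2 : T ^ (-(2 * |B|)) = (T * T) ^ (-|B|) := by
      rw [Real.mul_rpow hT0.le hT0.le, ← Real.rpow_add hT0]
      congr 1
      ring
    rw [e2]
    exact Real.rpow_le_rpow_of_nonpos (by positivity) (mul_le_mul_of_nonneg_right hTM hT0.le)
      (neg_nonpos.2 (abs_nonneg B))
  have hsub : (fun (q : Fin n → ℚ) (j : Fin n) => ((q j : ℚ) : F)) '' E ⊆ G := by
    rintro _ ⟨q, ⟨hqX, P, hPd, hPc, s₀, hs₀, hs⟩, rfl⟩
    refine ⟨⟨fun j => ?_, P, hPd, fun s => ?_, s₀, hs₀, ?_⟩, fun j => Finset.mem_image_of_mem _ (hqX j)⟩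
    · obtain ⟨h4, h5, h6⟩ := hX (q j) (hqX j)
      refine ⟨⟨(q j : ℝ), ⟨h4, h5⟩, ?_⟩, (((q j).num : ℤ) : 𝓞 F), (((q j).den : ℕ) : 𝓞 F), ?_, ?_, ?_⟩
      · rw [map_ratCast]
        push_cast
        rfl
      · exact_mod_cast (q j).den_ne_zero
      · intro φ
        have e1 : (((((q j).num : ℤ) : 𝓞 F)) : F) = (((q j).num : ℤ) : F) := by push_cast; rfl
        have e2 : (((((q j).den : ℕ) : 𝓞 F)) : F) = (((q j).den : ℕ) : F) := by push_cast; rfl
        rw [e1, e2, map_intCast, map_natCast, Complex.norm_intCast, Complex.norm_natCast]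
        constructor
        · have e3 : (q j : ℝ) = (q j).num / (q j).den := by exact_mod_cast (Rat.num_div_den (q j)).symm
          have e4 : (0 : ℝ) < (q j).den := by exact_mod_cast (q j).den_pos
          have e5 : ((q j).num : ℝ) = q j * (q j).den := by rw [e3]; field_simp
          have e6 : 0 < (q j : ℝ) := ha.trans_le h4
          rw [e5, abs_of_pos (mul_pos e6 e4)]
          exact mul_le_mul (h5.trans (le_max_right _ _)) h6 e4.le (by linarith)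
        · exact h6.trans hMT
      · have e1 : (((((q j).num : ℤ) : 𝓞 F)) : F) = (((q j).num : ℤ) : F) := by push_cast; rfl
        have e2 : (((((q j).den : ℕ) : 𝓞 F)) : F) = (((q j).den : ℕ) : F) := by push_cast; rfl
        change ((q j : ℚ) : F) = _
        rw [e1, e2]
        exact_mod_cast (congrArg (fun q : ℚ => (q : F)) (Rat.num_div_den (q j))).symm
    · obtain ⟨c, hc1, hc2⟩ := hPc s
      refine ⟨c, fun i φ => (hc1 i φ).trans ?_, hc2⟩
      exact (Real.rpow_le_rpow_of_exponent_le hT1 (le_max_left A 0)).trans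
        (Real.rpow_le_rpow hT0.le hMT (le_max_right A 0))
    · have e1 : (fun x : Fin n × Fin m => fB (ρ x.2) (ι (((q x.1 : ℚ) : F)))) =
          fun x : Fin n × Fin m => ((Bt (ρ x.2) (q x.1) : ℝ) : ℂ) := by
        funext x
        rw [map_ratCast, ← fB_real]
        push_cast
        rfl
      rw [e1]
      exact hs.trans (mul_le_mul_of_nonneg_right hpow (norm_nonneg _))
  have hinj2 : Function.Injective (fun (q : Fin n → ℚ) (j : Fin n) => ((q j : ℚ) : F)) := by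
    intro x y hxy
    funext j
    exact hinj (congrFun hxy j)
  have h4 : (E.ncard : ℝ) ≤ G.ncard := by
    rw [← Set.ncard_image_of_injective E hinj2]
    exact_mod_cast Set.ncard_le_ncard hsub hGf
  refine h4.trans (h3.trans (le_of_eq ?_))
  rw [Real.mul_rpow (by linarith) hT0.le]
  ring

end Pool.Agent.Y771.RP
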