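import Pool.Agent.Y771.RP.Rel
import Pool.Agent.W175.GF.Final

/-!
# Values of the Gamma function at algebraic functions: local independence
-/

set_option autoImplicit false

open Filter Topology MvPolynomial

namespace Pool.Agent.Y771.RP

theorem gamma_locInd (n : ℕ) (Ω : Set ℂ) (hΩ : IsOpen Ω) (hpc : IsPreconnected Ω) (y : Fin n → ℂ → ℂ)
    (hy : ∀ i, ∀ t ∈ Ω, AnalyticAt ℂ (y i) t)
    (halg : ∀ i, ∃ Q : Polynomial (Polynomial ℂ), Q ≠ 0 ∧ ∀ t ∈ Ω, Q.evalEval t (y i t) = 0)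
    (hnc : ∀ i, ∀ v : ℂ, ¬ ∀ t ∈ Ω, y i t = v)
    (hH : ∀ i j, i ≠ j → ∀ p q : ℚ, ¬ ∀ t ∈ Ω, y i t = p * y j t + q)
    (t0 : ℂ) (ht0 : t0 ∈ Ω) (hp : ∀ i, ∀ k : ℕ, y i t0 ≠ -k) :
    Y124.LocInd (fun i t => Complex.Gamma (y i t)) t0 := by
  classical
  intro P hP
  set D := P.totalDegree with hD
  set ks : (Option (Fin n) →₀ ℕ) → (Fin n → ℕ) := fun s i => D - s (some i) with hks
  set N : Finset (Fin n → ℕ) := P.support.image ks with hN
  set p : (Fin n → ℕ) → Polynomial ℂ := fun k => ∑ s ∈ P.support.filter (fun s => ks s = k),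
    Polynomial.C (P.coeff s) * Polynomial.X ^ (s none) with hpdef
  have hs : ∀ s ∈ P.support, ∀ i, s (some i) ≤ D := fun s hs i =>
    (Finsupp.le_degree (some i) s).trans (by
      have := le_totalDegree hs
      rwa [Finsupp.sum_fintype _ _ (fun _ => rfl), ← Finsupp.degree_eq_sum] at this)
  -- the sum as a sum over the support
  have hsum : ∀ t, ∑ k ∈ N, (p k).eval t * ∏ i, (Complex.Gamma (y i t))⁻¹ ^ k i =
      ∑ s ∈ P.support, P.coeff s * t ^ (s none) * ∏ i, (Complex.Gamma (y i t))⁻¹ ^ ks s i := by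
    intro t
    have h1 : ∀ k ∈ N, (p k).eval t * ∏ i, (Complex.Gamma (y i t))⁻¹ ^ k i =
        ∑ s ∈ P.support.filter (fun s => ks s = k),
          P.coeff s * t ^ (s none) * ∏ i, (Complex.Gamma (y i t))⁻¹ ^ ks s i := by
      intro k _
      rw [hpdef]
      simp only
      rw [Polynomial.eval_finsetSum, Finset.sum_mul]
      refine Finset.sum_congr rfl fun s hs' => ?_
      rw [(Finset.mem_filter.1 hs').2]
      simp
    rw [Finset.sum_congr rfl h1]
    exact Finset.sum_fiberwise_of_maps_to (fun s hs' => Finset.mem_image_of_mem ks hs') _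
  -- at points without poles
  have hval : ∀ t, (∀ i, Complex.Gamma (y i t) ≠ 0) →
      ∑ k ∈ N, (p k).eval t * ∏ i, (Complex.Gamma (y i t))⁻¹ ^ k i =
        (∏ i, (Complex.Gamma (y i t))⁻¹ ^ D) *
          eval (fun o : Option (Fin n) => o.elim t fun i => Complex.Gamma (y i t)) P := by
    intro t ht
    rw [hsum, eval_eq', Finset.mul_sum]
    refine Finset.sum_congr rfl fun s hs' => ?_
    rw [Fintype.prod_option]
    simp only [Option.elim_none, Option.elim_some]
    have h1 : ∏ i, (Complex.Gamma (y i t))⁻¹ ^ ks s i =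
        (∏ i, (Complex.Gamma (y i t))⁻¹ ^ D) * ∏ i, Complex.Gamma (y i t) ^ s (some i) := by
      rw [← Finset.prod_mul_distrib]
      refine Finset.prod_congr rfl fun i _ => ?_
      have h2 : (Complex.Gamma (y i t))⁻¹ ^ D =
          (Complex.Gamma (y i t))⁻¹ ^ ks s i * (Complex.Gamma (y i t))⁻¹ ^ s (some i) := by
        rw [← pow_add]
        congr 1
        rw [hks]
        simp only
        have := hs s hs' i
        omega
      rw [h2, mul_assoc, ← mul_pow, inv_mul_cancel₀ (ht i), one_pow, mul_one]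
    rw [h1]
    ring
  have hga : ∀ i, ∀ t ∈ Ω, AnalyticAt ℂ (fun t => (Complex.Gamma (y i t))⁻¹) t := fun i t ht =>
    AnalyticAt.fun_comp (g := fun s => (Complex.Gamma s)⁻¹) (f := y i) (inv_Gamma_analyticAt _) (hy i t ht)
  have hzero : ∀ t ∈ Ω, ∑ k ∈ N, (p k).eval t * ∏ i, (Complex.Gamma (y i t))⁻¹ ^ k i = 0 := by
    have hA : AnalyticOnNhd ℂ (fun t => ∑ k ∈ N, (p k).eval t * ∏ i, (Complex.Gamma (y i t))⁻¹ ^ k i) Ω := by
      intro t ht
      refine Finset.analyticAt_fun_sum _ fun k _ => AnalyticAt.mul ?_ ?_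
      · exact AnalyticOnNhd.eval_polynomial (𝕜 := ℂ) (p k) t (Set.mem_univ _)
      · exact Finset.analyticAt_fun_prod _ fun i _ => (hga i t ht).pow _
    have hnear : (fun t => ∑ k ∈ N, (p k).eval t * ∏ i, (Complex.Gamma (y i t))⁻¹ ^ k i) =ᶠ[𝓝 t0] 0 := by
      have hne : ∀ᶠ t in 𝓝 t0, ∀ i, Complex.Gamma (y i t) ≠ 0 := by
        rw [eventually_all]
        intro i
        have h1 : ContinuousAt (fun t => (Complex.Gamma (y i t))⁻¹) t0 := (hga i t0 ht0).continuousAt
        have h2 := h1.eventually_ne (inv_ne_zero (Complex.Gamma_ne_zero (hp i)))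
        filter_upwards [h2] with t ht
        intro h3
        rw [h3, inv_zero] at ht
        exact ht rfl
      filter_upwards [hP, hne] with t h1 h2
      rw [hval t h2, h1, mul_zero]
      rfl
    have h2 := hA.eqOn_zero_of_preconnected_of_eventuallyEq_zero hpc ht0 hnear
    intro t ht
    exact h2 ht
  have hall := Pool.Agent.W175.GF.gtF (Fin n) Ω (fun t => t) y N (fun k t => (p k).eval t) hΩ hpc ⟨t0, ht0⟩
    differentiableOn_id (fun i t ht => (hy i t ht).differentiableAt.differentiableWithinAt)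
    (fun k _ => (p k).differentiable.differentiableOn) (by
      intro v hv
      have h1 : Ω ∈ 𝓝 t0 := hΩ.mem_nhds ht0
      have h2 : ∀ᶠ t in 𝓝 t0, t = v := by
        filter_upwards [h1] with t ht using hv t ht
      have h3 : (𝓝[≠] t0).NeBot := inferInstance
      have h4 : ∀ᶠ t in 𝓝[≠] t0, t = v := h2.filter_mono nhdsWithin_le_nhds
      have h5 : ∀ᶠ t in 𝓝[≠] t0, t ≠ t0 := eventually_mem_nhdsWithin
      obtain ⟨t, ht, ht'⟩ := (h4.and h5).exists
      exact ht' (ht.trans (hv t0 ht0).symm)) hnc halg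
    (fun k _ => ⟨Polynomial.X - Polynomial.C (p k), Polynomial.X_sub_C_ne_zero _, fun t _ => by
      simp [Polynomial.evalEval]⟩) hH hzero
  -- the coefficients
  have hp0 : ∀ k ∈ N, p k = 0 := by
    intro k hk
    apply Polynomial.eq_zero_of_infinite_isRoot
    refine Set.Infinite.mono (s := Ω) (fun t ht => hall k hk t ht) ?_
    exact infinite_of_mem_nhds t0 (hΩ.mem_nhds ht0)
  by_contra hP0
  obtain ⟨s, hs'⟩ := support_nonempty.2 hP0
  have h1 := congrArg (fun q => Polynomial.coeff q (s none)) (hp0 (ks s) (Finset.mem_image_of_mem ks hs'))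
  simp only [hpdef, Polynomial.finsetSum_coeff, Polynomial.coeff_C_mul, Polynomial.coeff_X_pow,
    Polynomial.coeff_zero] at h1
  rw [Finset.sum_eq_single s] at h1
  · rw [if_pos rfl, mul_one] at h1
    exact (mem_support_iff.1 hs') h1
  · intro s' hs1 hne
    obtain ⟨h2, h3⟩ := Finset.mem_filter.1 hs1
    rw [if_neg, mul_zero]
    intro h4
    apply hne
    ext o
    cases o with
    | none => exact h4.symm
    | some i =>
      have h5 := congrFun h3 i
      simp only [hks] at h5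
      have h6 := hs s hs' i
      have h7 := hs s' h2 i
      omega
  · intro h2
    exact (h2 (Finset.mem_filter.2 ⟨hs', rfl⟩)).elim

/-- values of `Γ` at algebraic functions, over all number fields of degree at most `m` -/
theorem gamma_main (n : ℕ) (Ω : Set ℂ) (hΩ : IsOpen Ω) (hpc : IsPreconnected Ω) (y : Fin n → ℂ → ℂ)
    (hy : ∀ i, ∀ t ∈ Ω, AnalyticAt ℂ (y i) t)
    (halg : ∀ i, ∃ Q : Polynomial (Polynomial ℂ), Q ≠ 0 ∧ ∀ t ∈ Ω, Q.evalEval t (y i t) = 0)
    (hnc : ∀ i, ∀ v : ℂ, ¬ ∀ t ∈ Ω, y i t = v)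
    (hH : ∀ i j, i ≠ j → ∀ p q : ℚ, ¬ ∀ t ∈ Ω, y i t = p * y j t + q)
    (L : Set ℂ) (hL : IsCompact L) (hLΩ : L ⊆ Ω) (hLp : ∀ i, ∀ t ∈ L, ∀ k : ℕ, y i t ≠ -k)
    (m r g d : ℕ) (A ε : ℝ) (hε : 0 < ε) :
    ∃ B C T₀ : ℝ, ∀ (F : Type) [Field F] [NumberField F], Module.finrank ℚ F ≤ m → ∀ (ι : F →+* ℂ) (ξ : Fin g → ℂ)
      (T : ℝ), T₀ ≤ T → (Exc r d F ι ξ (fun _ i t => Complex.Gamma (y i t)) (fun _ => L) A B T).Finite ∧
        ((Exc r d F ι ξ (fun _ i t => Complex.Gamma (y i t)) (fun _ => L) A B T).ncard : ℝ) ≤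
          C * T ^ ε * ((Pts F ι L T).ncard : ℝ) ^ (r - 1) :=
  main' m r g d (fun i t => Complex.Gamma (y i t)) L hL
    (fun i t ht => AnalyticAt.fun_comp (g := Complex.Gamma) (f := y i) (Gamma_analyticAt (hLp i t ht))
      (hy i t (hLΩ ht)))
    (fun t ht => gamma_locInd n Ω hΩ hpc y hy halg hnc hH t (hLΩ ht) fun i => hLp i t ht) A ε hε

end Pool.Agent.Y771.RP
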