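import Pool.Agent.Y771.RP.Rel
import Pool.Agent.TH818.AP.All

/-!
# Nested families of products of elliptic curves
-/

set_option autoImplicit false

open Set Filter Topology MvPolynomial

namespace Pool.Agent.Y771.RP

open Pool.Agent.TH818.AR Pool.Agent.TH818.AP

/-- a real function mapping `(α, γ)` onto `(0, 1)`, with an inverse which is analytic on `[0, 1]` -/
structure Cht (s : ℝ → ℝ) (α γ : ℝ) : Prop where
  lt : α < γ
  an : ∀ t ∈ Ioo α γ, AnalyticAt ℝ s t
  maps : ∀ t ∈ Ioo α γ, s t ∈ Ioo (0 : ℝ) 1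
  inv : ∃ σ : ℝ → ℝ, (∀ u ∈ Icc (0 : ℝ) 1, AnalyticAt ℝ σ u ∧ σ u ∈ Icc α γ) ∧
    (∀ u ∈ Ioo (0 : ℝ) 1, σ u ∈ Ioo α γ ∧ s (σ u) = u) ∧ (∀ t ∈ Ioo α γ, σ (s t) = t)

theorem KC01_an (h1 : T_an) (i : Fin 3) {s : ℝ → ℝ} {α γ t : ℝ} (hs : Cht s α γ) (ht : t ∈ Ioo α γ) :
    AnalyticAt ℝ (fun t => KC 0 1 i (s t)) t :=
  AnalyticAt.fun_comp (g := KC 0 1 i) (f := s) (NestL.KC_an h1 i (hs.maps t ht)) (hs.an t ht)

theorem one_curve' (h2 : T_ind3r) {d : ℕ} {s : ℝ → ℝ} {α γ x y : ℝ} (hs : Cht s α γ) (hx : x < α) (hy : γ < y)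
    (c : (Fin 3 → Fin (d + 1)) → ℝ → ℝ) (hc : ∀ e, AnalyticOnNhd ℝ (c e) (Ioo x y))
    (h : ∀ t ∈ Ioo α γ, ∑ e, c e t * ∏ i, KC 0 1 i (s t) ^ (e i : ℕ) = 0) :
    ∀ e, ∀ t ∈ Ioo α γ, c e t = 0 := by
  obtain ⟨σ, hσ1, hσ2, hσ3⟩ := hs.inv
  obtain ⟨ε, hε0, hε⟩ : ∃ ε : ℝ, 0 < ε ∧ ∀ u ∈ Ioo (-ε) (1 + ε), AnalyticAt ℝ σ u ∧ σ u ∈ Ioo x y := by
    have hU : ∀ u ∈ Icc (0 : ℝ) 1, ∀ᶠ v in 𝓝 u, AnalyticAt ℝ σ v ∧ σ v ∈ Ioo x y := by
      intro u hu
      obtain ⟨h3, h4⟩ := hσ1 u hu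
      refine h3.eventually_analyticAt.and (h3.continuousAt.eventually_mem ?_)
      exact Ioo_mem_nhds (hx.trans_le h4.1) (h4.2.trans_lt hy)
    have hU' : Icc (0 : ℝ) 1 ⊆ interior {v | AnalyticAt ℝ σ v ∧ σ v ∈ Ioo x y} := by
      intro u hu
      exact mem_interior_iff_mem_nhds.2 (hU u hu)
    obtain ⟨δ, hδ, hsub⟩ := isCompact_Icc.exists_thickening_subset_open isOpen_interior hU'
    refine ⟨δ, hδ, fun u hu => ?_⟩
    have h5 : u ∈ Metric.thickening δ (Icc (0 : ℝ) 1) := by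
      rw [Metric.mem_thickening_iff]
      rcases lt_or_ge u 0 with h6 | h6
      · exact ⟨0, by simp, by rw [Real.dist_eq, abs_lt]; constructor <;> linarith [hu.1]⟩
      · rcases le_or_gt u 1 with h7 | h7
        · exact ⟨u, ⟨h6, h7⟩, by rw [dist_self]; exact hδ⟩
        · exact ⟨1, by simp, by rw [Real.dist_eq, abs_lt]; constructor <;> linarith [hu.2]⟩
    have h8 : u ∈ {v | AnalyticAt ℝ σ v ∧ σ v ∈ Ioo x y} := interior_subset (hsub h5)
    exact h8
  have key := h2 ε hε0 d (2 * d) (fun j D i u => ∑ e0 : Fin 3 → Fin (d + 1),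
    if ((e0 0 : ℕ) = i ∧ (e0 0 : ℕ) + (e0 1 : ℕ) = D ∧ (e0 2 : ℕ) = j) then c e0 (σ u) else 0)
    (by
      intro j D i u hu
      refine Finset.analyticAt_fun_sum _ (fun e0 _ => ?_)
      split_ifs
      · exact AnalyticAt.fun_comp (g := c e0) (f := σ) (hc e0 _ (hε u hu).2) (hε u hu).1
      · exact analyticAt_const)
    (by
      intro u hu0 hu1
      rw [NestL.sum_exp]
      obtain ⟨h3, h4⟩ := hσ2 u ⟨hu0, hu1⟩
      rw [← h (σ u) h3]
      refine Finset.sum_congr rfl (fun e0 _ => ?_)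
      rw [Fin.prod_univ_three, h4]
      have k0 : KC 0 1 0 u = KK u := by
        unfold KC
        rw [if_pos rfl, sub_zero, sub_zero, div_one]
      have k1 : KC 0 1 1 u = EE u := by
        unfold KC
        rw [if_neg (by decide), if_pos rfl, sub_zero, sub_zero, div_one]
      have k2 : KC 0 1 2 u = KK (1 - u) := by
        unfold KC
        rw [if_neg (by decide), if_neg (by decide), sub_zero, div_one]
      rw [k0, k1, k2]
      ring)
  intro e t ht
  have b0 := (e 0).isLt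
  have b1 := (e 1).isLt
  have b2 := (e 2).isLt
  have hst := hs.maps t ht
  have h3 := key (e 2 : ℕ) (by omega) ((e 0 : ℕ) + (e 1 : ℕ)) (by omega) (e 0 : ℕ) (by omega)
    (s t) ⟨by linarith [hst.1], by linarith [hst.2]⟩
  simp only [hσ3 t ht] at h3
  rw [NestL.single_exp (fun e0 => c e0 t) e] at h3
  exact h3

/-- monomials -/
noncomputable def monS {n d : ℕ} (s : Fin n → ℝ → ℝ) (e : Fin n → Fin 3 → Fin (d + 1)) (t : ℝ) : ℝ :=
  ∏ j, ∏ i, KC 0 1 i (s j t) ^ (e j i : ℕ)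

theorem monS_an (h1 : T_an) {n d : ℕ} {s : Fin n → ℝ → ℝ} {α γ : Fin n → ℝ} (hs : ∀ j, Cht (s j) (α j) (γ j))
    (e : Fin n → Fin 3 → Fin (d + 1)) {t : ℝ} (ht : ∀ j, t ∈ Ioo (α j) (γ j)) : AnalyticAt ℝ (monS s e) t := by
  unfold monS
  exact Finset.analyticAt_fun_prod _ (fun j _ => Finset.analyticAt_fun_prod _ (fun i _ =>
    (KC01_an h1 i (hs j) (ht j)).fun_pow _))

theorem monS_cons {n d : ℕ} (s : Fin (n + 1) → ℝ → ℝ) (e0 : Fin 3 → Fin (d + 1))
    (e' : Fin n → Fin 3 → Fin (d + 1)) (t : ℝ) :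
    monS s (Fin.cons e0 e' : Fin (n + 1) → Fin 3 → Fin (d + 1)) t =
      (∏ i, KC 0 1 i (s 0 t) ^ (e0 i : ℕ)) * monS (fun j => s j.succ) e' t := by
  unfold monS
  rw [Fin.prod_univ_succ]
  simp only [Fin.cons_zero, Fin.cons_succ]

/-- the general statement -/
theorem nest_main (h1 : T_an) (h2 : T_ind3r) (d N : ℕ) : ∀ (s : Fin N → ℝ → ℝ) (α γ : Fin N → ℝ) (x y u v : ℝ)
    (p : (Fin N → Fin 3 → Fin (d + 1)) → ℝ → ℝ),
    StrictAnti α → StrictMono γ → (∀ j, Cht (s j) (α j) (γ j)) → (∀ j, x < α j ∧ γ j < y) →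
    (∀ e, AnalyticOnNhd ℝ (p e) (Ioo x y)) → u < v → x ≤ u → v ≤ y →
    (∀ j, α j ≤ u ∧ v ≤ γ j) → (∀ t ∈ Ioo u v, ∑ e, p e t * monS s e t = 0) →
    ∀ e, ∀ t ∈ Ioo x y, p e t = 0 := by
  induction N with
  | zero =>
    intro s α γ x y u v p _ _ _ _ hp huv hxu hvy _ h e
    refine NestL.ident (hp e) huv hxu hvy (fun t ht => ?_)
    have h3 := h t ht
    rw [Fintype.sum_subsingleton _ e] at h3
    unfold monS at h3
    rwa [Fin.prod_univ_zero, mul_one] at h3
  | succ N ih =>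
    intro s α γ x y u v p hα hγ hs hxy hp huv hxu hvy huj h
    -- the smaller interval
    obtain ⟨x', y', hx1, hx2, hy1, hy2, hα', hγ'⟩ : ∃ x' y' : ℝ, x ≤ x' ∧ x' < α 0 ∧ y' ≤ y ∧
        γ 0 < y' ∧ (∀ j : Fin N, α j.succ ≤ x') ∧ (∀ j : Fin N, y' ≤ γ j.succ) := by
      rcases N with _ | M
      · exact ⟨x, y, le_rfl, (hxy 0).1, le_rfl, (hxy 0).2, fun j => j.elim0, fun j => j.elim0⟩
      · refine ⟨α 1, γ 1, (hxy 1).1.le, hα (by simp), (hxy 1).2.le, hγ (by simp), fun j => ?_,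
          fun j => ?_⟩
        · exact hα.antitone (Fin.succ_le_succ_iff.2 (Fin.zero_le j))
        · exact hγ.monotone (Fin.succ_le_succ_iff.2 (Fin.zero_le j))
    have hsub : Ioo x' y' ⊆ Ioo x y := Ioo_subset_Ioo hx1 hy1
    have hsub0 : Ioo (α 0) (γ 0) ⊆ Ioo x' y' := Ioo_subset_Ioo hx2.le hy2.le
    have hin : ∀ t ∈ Ioo x' y', ∀ j : Fin N, t ∈ Ioo (α j.succ) (γ j.succ) := fun t ht j =>
      ⟨(hα' j).trans_lt ht.1, ht.2.trans_le (hγ' j)⟩
    set c : (Fin 3 → Fin (d + 1)) → ℝ → ℝ := fun e0 t => ∑ e' : Fin N → Fin 3 → Fin (d + 1),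
      p (Fin.cons e0 e' : Fin (N + 1) → Fin 3 → Fin (d + 1)) t *
        monS (fun j => s j.succ) e' t with hc
    have hcan : ∀ e0, AnalyticOnNhd ℝ (c e0) (Ioo x' y') := by
      intro e0 t ht
      exact Finset.analyticAt_fun_sum _ (fun e' _ =>
        (hp _ t (hsub ht)).fun_mul (monS_an h1 (α := fun j => α j.succ) (γ := fun j => γ j.succ)
          (fun j => hs j.succ) e' (fun j => hin t ht j)))
    have hsplit : ∀ t, ∑ e, p e t * monS s e t =
        ∑ e0, c e0 t * ∏ i, KC 0 1 i (s 0 t) ^ (e0 i : ℕ) := by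
      intro t
      rw [← (Fin.consEquiv (fun _ : Fin (N + 1) => Fin 3 → Fin (d + 1))).sum_comp,
        Fintype.sum_prod_type]
      refine Finset.sum_congr rfl (fun e0 _ => ?_)
      rw [hc]
      simp only
      rw [Finset.sum_mul]
      refine Finset.sum_congr rfl (fun e' _ => ?_)
      have e1 : (Fin.consEquiv (fun _ : Fin (N + 1) => Fin 3 → Fin (d + 1))) (e0, e') =
          (Fin.cons e0 e' : Fin (N + 1) → Fin 3 → Fin (d + 1)) := rfl
      rw [e1, monS_cons]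
      ring
    have han0 : AnalyticOnNhd ℝ (fun t => ∑ e0, c e0 t * ∏ i, KC 0 1 i (s 0 t) ^ (e0 i : ℕ))
        (Ioo (α 0) (γ 0)) := by
      intro t ht
      exact Finset.analyticAt_fun_sum _ (fun e0 _ => (hcan e0 t (hsub0 ht)).fun_mul
        (Finset.analyticAt_fun_prod _ (fun i _ => (KC01_an h1 i (hs 0) ht).fun_pow _)))
    have hF := NestL.ident han0 huv (huj 0).1 (huj 0).2 (fun t ht => by
      rw [← hsplit]
      exact h t ht)
    have hc0 := one_curve' h2 (hs 0) hx2 hy2 c hcan hF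
    intro e t ht
    have h5 := ih (fun j => s j.succ) (fun j => α j.succ) (fun j => γ j.succ) x y (α 0) (γ 0)
      (fun e' => p (Fin.cons (e 0) e' : Fin (N + 1) → Fin 3 → Fin (d + 1)))
      (fun i j hij => hα (Fin.succ_lt_succ_iff.2 hij))
      (fun i j hij => hγ (Fin.succ_lt_succ_iff.2 hij)) (fun j => hs _) (fun j => hxy _)
      (fun e' => hp _) (hs 0).lt (hxy 0).1.le (hxy 0).2.le
      (fun j => ⟨(hα (Fin.succ_pos j)).le, (hγ (Fin.succ_pos j)).le⟩)
      (fun t ht => hc0 (e 0) t ht) (fun j => e j.succ) t ht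
    have e1 : (Fin.cons (e 0) (fun j => e j.succ) : Fin (N + 1) → Fin 3 → Fin (d + 1)) = e :=
      Fin.cons_self_tail e
    simp only [e1] at h5
    exact h5

/-- the functions `K(s_j(t))`, `E(s_j(t))`, `K(1 - s_j(t))` -/
noncomputable def KS {N : ℕ} (s : Fin N → ℝ → ℝ) (y : Fin N × Fin 3) (t : ℝ) : ℝ := KC 0 1 y.2 (s y.1 t)

/-- independence of all the functions, as a statement on polynomials -/
theorem nest_ind (N : ℕ) (s : Fin (N + 1) → ℝ → ℝ) (α γ : Fin (N + 1) → ℝ) (hα : StrictAnti α) (hγ : StrictMono γ)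
    (u v : ℝ) (huv : u < v) (hu : α 0 ≤ u) (hv : v ≤ γ 0)
    (hs : ∀ j, Cht (s j) (α j) (γ j)) (P : MvPolynomial (Option (Fin (N + 1) × Fin 3)) ℝ)
    (hP : ∀ t ∈ Ioo u v,
      eval (fun o : Option (Fin (N + 1) × Fin 3) => o.elim t fun y => KS s y t) P = 0) : P = 0 := by
  classical
  have hlastα : ∀ j, α (Fin.last N) ≤ α j := fun j => hα.antitone (Fin.le_last j)
  have hlastγ : ∀ j, γ j ≤ γ (Fin.last N) := fun j => hγ.monotone (Fin.le_last j)
  have hα0 : ∀ j, α j ≤ α 0 := fun j => hα.antitone (Fin.zero_le j)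
  have hγ0 : ∀ j, γ 0 ≤ γ j := fun j => hγ.monotone (Fin.zero_le j)
  refine mv_of_exp (KS s) (Ioo u v) (fun d p hp => ?_) P hP
  obtain ⟨q, hq⟩ : ∃ q : (Fin (N + 1) → Fin 3 → Fin (d + 1)) → Polynomial ℝ,
      ∀ e, q e = p (fun y => e y.1 y.2) := ⟨_, fun _ => rfl⟩
  have hsum : ∀ t ∈ Ioo u v, ∑ e, (q e).eval t * monS s e t = 0 := by
    intro t ht
    refine Eq.trans ?_ (hp t ht)
    rw [← (Equiv.curry (Fin (N + 1)) (Fin 3) (Fin (d + 1))).sum_comp]
    refine Finset.sum_congr rfl fun e _ => ?_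
    rw [hq]
    congr 1
    rw [Fintype.prod_prod_type]
    rfl
  have hana : ∀ e, AnalyticOnNhd ℝ (fun t => (q e).eval t) (Ioo (α (Fin.last N) - 1) (γ (Fin.last N) + 1)) :=
    fun e => (AnalyticOnNhd.eval_polynomial (𝕜 := ℝ) (q e)).mono (subset_univ _)
  have hj1 : ∀ j, α (Fin.last N) - 1 < α j ∧ γ j < γ (Fin.last N) + 1 := fun j =>
    ⟨by linarith [hlastα j], by linarith [hlastγ j]⟩
  have key := nest_main an (ind3r_of an pos leg sing tr) d (N + 1) s α γ (α (Fin.last N) - 1) (γ (Fin.last N) + 1)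
    u v (fun e t => (q e).eval t) hα hγ hs hj1 hana huv (by linarith [hlastα 0]) (by linarith [hlastγ 0])
    (fun j => ⟨(hα0 j).trans hu, hv.trans (hγ0 j)⟩) hsum
  funext e
  have he : q (fun j i => e (j, i)) = p e := hq _
  rw [← he]
  apply Polynomial.eq_zero_of_infinite_isRoot
  refine Set.Infinite.mono (s := Ioo u v) ?_ (Set.Ioo_infinite huv)
  intro t ht
  exact key (fun j i => e (j, i)) t ⟨by linarith [hlastα 0, ht.1], by linarith [hlastγ 0, ht.2]⟩

/-- the real Moebius map with `α ↦ 0`, `γ ↦ 1` -/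
noncomputable def sR (α γ κ t : ℝ) : ℝ := (t - α) / ((γ - α) + κ * (t - γ))

theorem sR_den {α γ κ t : ℝ} (hκ : κ < 1) (ht : t ∈ Ioo α γ) : t - α < (γ - α) + κ * (t - γ) := by
  nlinarith [ht.1, ht.2]

theorem cht_sR {α γ κ : ℝ} (h : α < γ) (hκ : κ < 1) : Cht (sR α γ κ) α γ := by
  have hden : ∀ u ∈ Icc (0 : ℝ) 1, 0 < 1 - κ * u := by
    intro u hu
    rcases le_or_gt κ 0 with h1 | h1
    · nlinarith [hu.1, hu.2]
    · nlinarith [hu.1, hu.2]
  have hσα : ∀ u ∈ Icc (0 : ℝ) 1, (α + u * ((γ - α) - κ * γ)) / (1 - κ * u) - α =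
      u * ((γ - α) * (1 - κ)) / (1 - κ * u) := by
    intro u hu
    have := (hden u hu).ne'
    rw [eq_div_iff this, sub_mul, div_mul_cancel₀ _ this]
    ring
  have hσγ : ∀ u ∈ Icc (0 : ℝ) 1, γ - (α + u * ((γ - α) - κ * γ)) / (1 - κ * u) =
      (1 - u) * (γ - α) / (1 - κ * u) := by
    intro u hu
    have := (hden u hu).ne'
    rw [eq_div_iff this, sub_mul, div_mul_cancel₀ _ this]
    ring
  have hpos : 0 < (γ - α) * (1 - κ) := mul_pos (by linarith) (by linarith)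
  refine ⟨h, fun t ht => ?_, fun t ht => ?_, ⟨fun u => (α + u * ((γ - α) - κ * γ)) / (1 - κ * u), ?_, ?_, ?_⟩⟩
  · have h1 := sR_den hκ ht
    have h2 : (γ - α) + κ * (t - γ) ≠ 0 := by linarith [ht.1]
    exact (analyticAt_id.sub analyticAt_const).div
      (analyticAt_const.add (analyticAt_const.mul (analyticAt_id.sub analyticAt_const))) h2
  · have h1 := sR_den hκ ht
    have h2 : 0 < (γ - α) + κ * (t - γ) := by linarith [ht.1]
    exact ⟨div_pos (by linarith [ht.1]) h2, (div_lt_one h2).2 h1⟩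
  · intro u hu
    have h1 := hden u hu
    refine ⟨?_, ?_, ?_⟩
    · exact (analyticAt_const.add (analyticAt_id.mul analyticAt_const)).div
        (analyticAt_const.sub (analyticAt_const.mul analyticAt_id)) h1.ne'
    · have h2 := hσα u hu
      have h3 : 0 ≤ u * ((γ - α) * (1 - κ)) / (1 - κ * u) := div_nonneg (mul_nonneg hu.1 hpos.le) h1.le
      linarith
    · have h2 := hσγ u hu
      have h3 : 0 ≤ (1 - u) * (γ - α) / (1 - κ * u) :=
        div_nonneg (mul_nonneg (by linarith [hu.2]) (by linarith)) h1.le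
      linarith
  · intro u hu
    have hu' : u ∈ Icc (0 : ℝ) 1 := ⟨hu.1.le, hu.2.le⟩
    have h1 := hden u hu'
    refine ⟨⟨?_, ?_⟩, ?_⟩
    · have h2 := hσα u hu'
      have h3 : 0 < u * ((γ - α) * (1 - κ)) / (1 - κ * u) := div_pos (mul_pos hu.1 hpos) h1
      linarith
    · have h2 := hσγ u hu'
      have h3 : 0 < (1 - u) * (γ - α) / (1 - κ * u) := div_pos (mul_pos (by linarith [hu.2]) (by linarith)) h1
      linarith
    · have h2 : (γ - α) + κ * ((α + u * ((γ - α) - κ * γ)) / (1 - κ * u) - γ) =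
          (γ - α) * (1 - κ) / (1 - κ * u) := by
        have := h1.ne'
        field_simp
        ring
      unfold sR
      rw [h2, hσα u hu', div_div_div_cancel_right₀ h1.ne', mul_div_cancel_right₀ _ hpos.ne']
  · intro t ht
    have h1 := sR_den hκ ht
    have h2 : 0 < (γ - α) + κ * (t - γ) := by linarith [ht.1]
    have h3 : 1 - κ * sR α γ κ t = ((γ - α) * (1 - κ)) / ((γ - α) + κ * (t - γ)) := by
      unfold sR
      have := h2.ne'
      field_simp
      ring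
    have h4 : α + sR α γ κ t * ((γ - α) - κ * γ) = t * ((γ - α) * (1 - κ)) / ((γ - α) + κ * (t - γ)) := by
      unfold sR
      have := h2.ne'
      field_simp
      ring
    change (α + sR α γ κ t * ((γ - α) - κ * γ)) / (1 - κ * sR α γ κ t) = t
    rw [h3, h4, div_div_div_cancel_right₀ h2.ne', mul_div_cancel_right₀ _ hpos.ne']

/-- the plane without the half-lines `(-∞, α]` and `[γ, ∞)` -/
def Om (α γ : ℝ) : Set ℂ := {t | t.im = 0 → α < t.re ∧ t.re < γ}

theorem isPreconnected_Om {α γ : ℝ} (h : α < γ) : IsPreconnected (Om α γ) := by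
  have hs : StarConvex ℝ ((((α + γ) / 2 : ℝ)) : ℂ) (Om α γ) := by
    intro z hz a b ha hb hab him
    simp only [Complex.add_im, Complex.real_smul, Complex.mul_im, Complex.ofReal_re, Complex.ofReal_im, mul_zero,
      zero_mul, add_zero, zero_add] at him
    simp only [Complex.add_re, Complex.real_smul, Complex.mul_re, Complex.ofReal_re, Complex.ofReal_im, 
      zero_mul, sub_zero]
    rcases mul_eq_zero.1 him with hb0 | hz0
    · rw [hb0] at hab ⊢
      have ha1 : a = 1 := by linarith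
      rw [ha1]
      constructor <;> linarith
    · obtain ⟨h1, h2⟩ := hz hz0
      constructor
      · rcases eq_or_lt_of_le hb with h3 | h3
        · rw [← h3] at hab ⊢
          have ha1 : a = 1 := by linarith
          rw [ha1]; linarith
        · have e1 : b * α < b * z.re := mul_lt_mul_of_pos_left h1 h3
          have e2 : a * α ≤ a * ((α + γ) / 2) := mul_le_mul_of_nonneg_left (by linarith) ha
          have e3 : a * α + b * α = α := by rw [← add_mul, hab, one_mul]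
          linarith
      · rcases eq_or_lt_of_le hb with h3 | h3
        · rw [← h3] at hab ⊢
          have ha1 : a = 1 := by linarith
          rw [ha1]; linarith
        · have e1 : b * z.re < b * γ := mul_lt_mul_of_pos_left h2 h3
          have e2 : a * ((α + γ) / 2) ≤ a * γ := mul_le_mul_of_nonneg_left (by linarith) ha
          have e3 : a * γ + b * γ = γ := by rw [← add_mul, hab, one_mul]
          linarith
  have hm : ((((α + γ) / 2 : ℝ)) : ℂ) ∈ Om α γ := by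
    intro _
    simp only [Complex.ofReal_re]
    constructor <;> linarith
  exact (hs.isPathConnected hm).isConnected.isPreconnected

/-- the complex Moebius map with `α ↦ 0`, `γ ↦ 1` -/
noncomputable def sC (α γ κ : ℝ) (t : ℂ) : ℂ := (t - α) / ((γ - α) + κ * (t - γ))

theorem sC_real (α γ κ t : ℝ) : sC α γ κ (t : ℂ) = ((sR α γ κ t : ℝ) : ℂ) := by
  unfold sC sR
  push_cast
  rfl

theorem sC_den {α γ κ α0 γ0 : ℝ} (hκ : κ < 1) (hα : α ≤ α0) (hγ : γ0 ≤ γ) (h0 : α0 < γ0) {t : ℂ} (ht : t ∈ Om α0 γ0) :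
    ((γ : ℂ) - α) + κ * (t - γ) ≠ 0 := by
  by_cases him : t.im = 0
  · obtain ⟨h1, h2⟩ := ht him
    have h3 : t = ((t.re : ℝ) : ℂ) := Complex.ext rfl (by rw [Complex.ofReal_im]; exact him)
    have h4 := sR_den (α := α) (γ := γ) hκ (t := t.re) ⟨hα.trans_lt h1, h2.trans_le hγ⟩
    have h5 : (γ - α) + κ * (t.re - γ) ≠ 0 := by linarith
    rw [h3]
    exact_mod_cast h5
  · intro h1
    have h2 := congrArg Complex.im h1
    simp only [Complex.add_im, Complex.sub_im, Complex.mul_im, Complex.ofReal_re, Complex.ofReal_im, Complex.sub_re,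
      zero_mul, sub_zero, sub_self, add_zero, zero_add, Complex.zero_im] at h2
    rcases mul_eq_zero.1 h2 with h3 | h3
    · rw [h3] at h1
      have h4 := congrArg Complex.re h1
      simp at h4
      linarith
    · exact him h3

theorem sC_mem {α γ κ α0 γ0 : ℝ} (hκ : κ < 1) (hα : α ≤ α0) (hγ : γ0 ≤ γ) (h0 : α0 < γ0) {t : ℂ} (ht : t ∈ Om α0 γ0) :
    sC α γ κ t ∈ Y124.Dom := by
  by_cases him : t.im = 0
  · obtain ⟨h1, h2⟩ := ht him
    have h3 : t = ((t.re : ℝ) : ℂ) := Complex.ext rfl (by rw [Complex.ofReal_im]; exact him)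
    have h4 := (cht_sR (α := α) (γ := γ) (by linarith) hκ).maps t.re ⟨hα.trans_lt h1, h2.trans_le hγ⟩
    rw [h3, sC_real]
    exact Y124.real_mem_Dom h4.1 h4.2
  · have hden := sC_den hκ hα hγ h0 ht
    have h1 : (sC α γ κ t).im ≠ 0 := by
      unfold sC
      rw [Complex.div_im]
      have h2 : Complex.normSq (((γ : ℂ) - α) + κ * (t - γ)) ≠ 0 := fun h => hden (Complex.normSq_eq_zero.1 h)
      simp only [Complex.add_im, Complex.add_re, Complex.sub_im, Complex.mul_im, Complex.mul_re, Complex.ofReal_re,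
        Complex.ofReal_im, Complex.sub_re, zero_mul, sub_zero, sub_self, add_zero, zero_add]
      rw [div_sub_div_same]
      apply div_ne_zero _ h2
      have h3 : t.im * (γ - α + κ * (t.re - γ)) - (t.re - α) * (κ * t.im) = t.im * ((γ - α) * (1 - κ)) := by ring
      rw [h3]
      exact mul_ne_zero him (mul_pos (by linarith) (by linarith)).ne'
    constructor
    · rw [Complex.mem_slitPlane_iff]
      exact Or.inr h1
    · rw [Complex.mem_slitPlane_iff]
      right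
      rw [Complex.sub_im, Complex.one_im, zero_sub]
      exact neg_ne_zero.2 h1

/-- the functions -/
noncomputable def fN {N : ℕ} (α γ κ : Fin (N + 1) → ℝ) (y : Fin (N + 1) × Fin 3) (t : ℂ) : ℂ :=
  Y124.fC y.2 (sC (α y.1) (γ y.1) (κ y.1) t)

theorem fN_an {N : ℕ} (α γ κ : Fin (N + 1) → ℝ) (hα : StrictAnti α) (hγ : StrictMono γ)
    (h0 : α 0 < γ 0) (hκ : ∀ j, κ j < 1) (y : Fin (N + 1) × Fin 3) (t : ℂ) (ht : t ∈ Om (α 0) (γ 0)) :
    AnalyticAt ℂ (fN α γ κ y) t := by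
  have h1 := sC_mem (hκ y.1) (hα.antitone (Fin.zero_le y.1)) (hγ.monotone (Fin.zero_le y.1)) h0 ht
  have h2 := sC_den (hκ y.1) (hα.antitone (Fin.zero_le y.1)) (hγ.monotone (Fin.zero_le y.1)) h0 ht
  refine AnalyticAt.fun_comp (g := Y124.fC y.2) (f := sC (α y.1) (γ y.1) (κ y.1)) (Y124.fC_analytic y.2 _ h1) ?_
  exact (analyticAt_id.sub analyticAt_const).div
      (analyticAt_const.add (analyticAt_const.mul (analyticAt_id.sub analyticAt_const))) h2

theorem fN_locInd {N : ℕ} (α γ κ : Fin (N + 1) → ℝ) (hα : StrictAnti α) (hγ : StrictMono γ)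
    (h0 : α 0 < γ 0) (hκ : ∀ j, κ j < 1) : ∀ t ∈ Om (α 0) (γ 0), Y124.LocInd (fN α γ κ) t := by
  have hs : ∀ j, Cht (sR (α j) (γ j) (κ j)) (α j) (γ j) := by
    intro j
    have h1 : α j ≤ α 0 := hα.antitone (Fin.zero_le j)
    have h2 : γ 0 ≤ γ j := hγ.monotone (Fin.zero_le j)
    exact cht_sR (by linarith) (hκ j)
  refine locInd_of (fN α γ κ) (Om (α 0) (γ 0)) (isPreconnected_Om h0) (fun y t ht => fN_an α γ κ hα hγ h0 hκ y t ht)
    fun P hP => ?_
  refine ind_of_real (fN α γ κ) (KS fun j => sR (α j) (γ j) (κ j)) (Ioo (α 0) (γ 0)) ?_ ?_ P ?_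
  · intro y t ht
    have h1 := (hs y.1).maps t ⟨(hα.antitone (Fin.zero_le y.1)).trans_lt ht.1,
      ht.2.trans_le (hγ.monotone (Fin.zero_le y.1))⟩
    unfold fN
    rw [sC_real]
    exact Y124.fC_real y.2 _ h1.1 h1.2
  · intro Q hQ
    exact nest_ind N (fun j => sR (α j) (γ j) (κ j)) α γ hα hγ (α 0) (γ 0) h0 le_rfl le_rfl hs Q hQ
  · intro t ht
    exact hP t fun _ => ⟨ht.1, ht.2⟩

end Pool.Agent.Y771.RP
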