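import Pool.Agent.Y771.RP.Nest

/-!
# Nested families of products of elliptic curves, arbitrary real analytic parameters
-/

set_option autoImplicit false

open Set Filter Topology MvPolynomial

namespace Pool.Agent.Y771.RP

open Pool.Agent.TH818.AR Pool.Agent.TH818.AP

/-- a function which is analytic at the points of a real segment, real and increasing there, from `0` to `1` -/
theorem cht_of (s : ℂ → ℂ) (α γ : ℝ) (h : α < γ)
    (hs : ∀ x ∈ Icc α γ, AnalyticAt ℂ s (x : ℂ) ∧ (s x).im = 0 ∧ 0 < (deriv s (x : ℂ)).re)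
    (h0 : s α = 0) (h1 : s γ = 1) : Cht (fun x : ℝ => (s x).re) α γ := by
  set r : ℝ → ℝ := fun x : ℝ => (s x).re with hr
  have han : ∀ x ∈ Icc α γ, AnalyticAt ℝ r x := by
    intro x hx
    have h3 : AnalyticAt ℝ (fun y : ℝ => s (y : ℂ)) x :=
      ((hs x hx).1.restrictScalars (𝕜 := ℝ)).comp_of_eq (Complex.ofRealCLM.analyticAt x) rfl
    exact (Complex.reCLM.analyticAt _).comp h3
  have hd : ∀ x ∈ Icc α γ, 0 < deriv r x := by
    intro x hx
    have h3 := ((hs x hx).1.differentiableAt.hasDerivAt).real_of_complex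
    rw [h3.deriv]
    exact (hs x hx).2.2
  have hr0 : r α = 0 := by rw [hr]; simp only; rw [h0]; rfl
  have hr1 : r γ = 1 := by rw [hr]; simp only; rw [h1]; rfl
  -- a neighbourhood
  obtain ⟨δ, hδ, hU⟩ : ∃ δ : ℝ, 0 < δ ∧ ∀ x ∈ Ioo (α - δ) (γ + δ), AnalyticAt ℝ r x ∧ 0 < deriv r x := by
    have hU' : Icc α γ ⊆ interior {x | AnalyticAt ℝ r x ∧ 0 < deriv r x} := by
      intro x hx
      rw [mem_interior_iff_mem_nhds]
      have h3 := han x hx
      exact h3.eventually_analyticAt.and (h3.deriv.continuousAt.eventually (lt_mem_nhds (hd x hx)))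
    obtain ⟨δ, hδ, hsub⟩ := isCompact_Icc.exists_thickening_subset_open isOpen_interior hU'
    refine ⟨δ, hδ, fun u hu => ?_⟩
    have h5 : u ∈ Metric.thickening δ (Icc α γ) := by
      rw [Metric.mem_thickening_iff]
      rcases lt_or_ge u α with h6 | h6
      · exact ⟨α, ⟨le_rfl, h.le⟩, by rw [Real.dist_eq, abs_lt]; constructor <;> linarith [hu.1]⟩
      · rcases le_or_gt u γ with h7 | h7
        · exact ⟨u, ⟨h6, h7⟩, by rw [dist_self]; exact hδ⟩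
        · exact ⟨γ, ⟨h.le, le_rfl⟩, by rw [Real.dist_eq, abs_lt]; constructor <;> linarith [hu.2]⟩
    have h8 : u ∈ {x | AnalyticAt ℝ r x ∧ 0 < deriv r x} := interior_subset (hsub h5)
    exact h8
  set I : Set ℝ := Ioo (α - δ) (γ + δ) with hI
  have hsubI : Icc α γ ⊆ I := fun x hx => ⟨by linarith [hx.1], by linarith [hx.2]⟩
  have hmono : StrictMonoOn r I := by
    refine strictMonoOn_of_deriv_pos (convex_Ioo _ _) (fun x hx => (hU x hx).1.continuousAt.continuousWithinAt) ?_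
    intro x hx
    rw [interior_Ioo] at hx
    exact (hU x hx).2
  have hinv : ∀ x ∈ I, Function.invFunOn r I (r x) = x := fun x hx =>
    hmono.injOn.leftInvOn_invFunOn hx
  have hsurj : ∀ u ∈ Icc (0 : ℝ) 1, ∃ x ∈ Icc α γ, r x = u := by
    intro u hu
    have h3 : Icc (r α) (r γ) ⊆ r '' Icc α γ :=
      intermediate_value_Icc h.le fun x hx => (han x hx).continuousAt.continuousWithinAt
    rw [hr0, hr1] at h3
    obtain ⟨x, hx, hxu⟩ := h3 hu
    exact ⟨x, hx, hxu⟩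
  have hαI : α ∈ I := hsubI ⟨le_rfl, h.le⟩
  have hγI : γ ∈ I := hsubI ⟨h.le, le_rfl⟩
  refine ⟨h, fun t ht => han t ⟨ht.1.le, ht.2.le⟩, fun t ht => ⟨?_, ?_⟩, Function.invFunOn r I, ?_, ?_, ?_⟩
  · rw [← hr0]
    exact hmono hαI (hsubI ⟨ht.1.le, ht.2.le⟩) ht.1
  · rw [← hr1]
    exact hmono (hsubI ⟨ht.1.le, ht.2.le⟩) hγI ht.2
  · intro u hu
    obtain ⟨x, hx, rfl⟩ := hsurj u hu
    refine ⟨?_, by rw [hinv x (hsubI hx)]; exact hx⟩
    have hne : deriv r x ≠ 0 := (hd x hx).ne'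
    have h3 := (han x hx).analyticAt_localInverse hne
    set ρ := (han x hx).hasStrictDerivAt.localInverse r (deriv r x) x hne with hρ
    have h4 : ∀ᶠ v in 𝓝 (r x), r (ρ v) = v := HasStrictDerivAt.eventually_right_inverse ..
    have h5 : ρ (r x) = x := HasStrictFDerivAt.localInverse_apply_image ..
    have h6 : ∀ᶠ v in 𝓝 (r x), ρ v ∈ I := by
      have h7 : ContinuousAt ρ (r x) := h3.continuousAt
      apply h7.eventually_mem
      rw [h5]
      exact isOpen_Ioo.mem_nhds (hsubI hx)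
    refine h3.congr ?_
    filter_upwards [h4, h6] with v hv hv'
    rw [← hinv (ρ v) hv', hv]
  · intro u hu
    obtain ⟨x, hx, rfl⟩ := hsurj u ⟨hu.1.le, hu.2.le⟩
    rw [hinv x (hsubI hx)]
    refine ⟨⟨lt_of_le_of_ne hx.1 ?_, lt_of_le_of_ne hx.2 ?_⟩, rfl⟩
    · rintro rfl
      rw [hr0] at hu
      exact lt_irrefl _ hu.1
    · rintro rfl
      rw [hr1] at hu
      exact lt_irrefl _ hu.2
  · intro t ht
    exact hinv t (hsubI ⟨ht.1.le, ht.2.le⟩)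

/-- the functions -/
noncomputable def fS {N : ℕ} (s : Fin (N + 1) → ℂ → ℂ) (y : Fin (N + 1) × Fin 3) (t : ℂ) : ℂ :=
  Y124.fC y.2 (s y.1 t)

section
variable {N : ℕ} (s : Fin (N + 1) → ℂ → ℂ) (α γ : Fin (N + 1) → ℝ) (hα : StrictAnti α) (hγ : StrictMono γ)
  (h0 : α 0 < γ 0)
  (hs : ∀ j, ∀ x ∈ Icc (α j) (γ j), AnalyticAt ℂ (s j) (x : ℂ) ∧ (s j x).im = 0 ∧ 0 < (deriv (s j) (x : ℂ)).re)
  (hs0 : ∀ j, s j (α j) = 0) (hs1 : ∀ j, s j (γ j) = 1)
include hα hγ h0 hs hs0 hs1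

theorem cht_all (j : Fin (N + 1)) : Cht (fun x : ℝ => (s j x).re) (α j) (γ j) := by
  have h1 : α j ≤ α 0 := hα.antitone (Fin.zero_le j)
  have h2 : γ 0 ≤ γ j := hγ.monotone (Fin.zero_le j)
  exact cht_of (s j) (α j) (γ j) (by linarith) (hs j) (hs0 j) (hs1 j)

theorem fS_val (j : Fin (N + 1)) (x : ℝ) (hx : x ∈ Ioo (α 0) (γ 0)) :
    s j (x : ℂ) = (((s j x).re : ℝ) : ℂ) ∧ (s j x).re ∈ Ioo (0 : ℝ) 1 := by
  have h1 : α j ≤ α 0 := hα.antitone (Fin.zero_le j)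
  have h2 : γ 0 ≤ γ j := hγ.monotone (Fin.zero_le j)
  have hx' : x ∈ Icc (α j) (γ j) := ⟨h1.trans hx.1.le, hx.2.le.trans h2⟩
  refine ⟨Complex.ext rfl (by rw [Complex.ofReal_im]; exact (hs j x hx').2.1), ?_⟩
  exact (cht_all s α γ hα hγ h0 hs hs0 hs1 j).maps x ⟨h1.trans_lt hx.1, hx.2.trans_le h2⟩

theorem fS_an (y : Fin (N + 1) × Fin 3) (x : ℝ) (hx : x ∈ Ioo (α 0) (γ 0)) : AnalyticAt ℂ (fS s y) (x : ℂ) := by
  have h1 : α y.1 ≤ α 0 := hα.antitone (Fin.zero_le y.1)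
  have h2 : γ 0 ≤ γ y.1 := hγ.monotone (Fin.zero_le y.1)
  obtain ⟨h3, h4⟩ := fS_val s α γ hα hγ h0 hs hs0 hs1 y.1 x hx
  refine AnalyticAt.fun_comp (g := Y124.fC y.2) (f := s y.1) (Y124.fC_analytic y.2 _ ?_)
    (hs y.1 x ⟨h1.trans hx.1.le, hx.2.le.trans h2⟩).1
  rw [h3]
  exact Y124.real_mem_Dom h4.1 h4.2

theorem fS_locInd (x : ℝ) (hx : x ∈ Ioo (α 0) (γ 0)) : Y124.LocInd (fS s) (x : ℂ) := by
  intro P hP
  have h1 : ∀ᶠ t : ℝ in 𝓝 x, eval (fun o : Option (Fin (N + 1) × Fin 3) => o.elim (t : ℂ) fun y => fS s y t) P = 0 :=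
    (Complex.continuous_ofReal.tendsto x).eventually hP
  obtain ⟨u, v, ⟨hu, hv⟩, huv⟩ := mem_nhds_iff_exists_Ioo_subset.1
    (h1.and (Ioo_mem_nhds hx.1 hx.2) : ∀ᶠ t : ℝ in 𝓝 x, _ ∧ t ∈ Ioo (α 0) (γ 0))
  set u' := max u (α 0) with hu'
  set v' := min v (γ 0) with hv'
  have hlt : u' < v' := (max_lt hu hx.1).trans (lt_min hv hx.2)
  have hmem : ∀ t ∈ Ioo u' v', t ∈ Ioo u v := fun t ht =>
    ⟨(le_max_left _ _).trans_lt ht.1, ht.2.trans_le (min_le_left _ _)⟩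
  refine ind_of_real (fS s) (KS fun j t => (s j t).re) (Ioo u' v') ?_ ?_ P ?_
  · intro y t ht
    obtain ⟨h3, h4⟩ := fS_val s α γ hα hγ h0 hs hs0 hs1 y.1 t (huv (hmem t ht)).2
    unfold fS
    rw [h3]
    exact Y124.fC_real y.2 _ h4.1 h4.2
  · intro Q hQ
    exact nest_ind N (fun j t => (s j t).re) α γ hα hγ u' v' hlt (le_max_right _ _) (min_le_right _ _)
      (cht_all s α γ hα hγ h0 hs hs0 hs1) Q hQ
  · intro t ht
    exact (huv (hmem t ht)).1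

end

end Pool.Agent.Y771.RP
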