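import Pool.Agent.Y124.NFW

/-!
# Relations over number fields for functions of one variable: packaging
-/

set_option autoImplicit false

open Finset NumberField MvPolynomial Filter Topology

namespace Pool.Agent.Y771.RP

/-- local independence on a preconnected set, from independence on the whole set -/
theorem locInd_of {κ : Type} (f : κ → ℂ → ℂ) (Ω : Set ℂ) (hpc : IsPreconnected Ω)
    (han : ∀ y, ∀ t ∈ Ω, AnalyticAt ℂ (f y) t)
    (hind : ∀ P : MvPolynomial (Option κ) ℂ, (∀ t ∈ Ω, eval (fun o => o.elim t fun y => f y t) P = 0) → P = 0) :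
    ∀ t0 ∈ Ω, Y124.LocInd f t0 := by
  intro t0 ht0 P hP
  refine hind P ?_
  have hA : AnalyticOnNhd ℂ (fun t => eval (fun o : Option κ => o.elim t fun y => f y t) P) Ω := by
    intro t ht
    have h1 : (fun t => eval (fun o : Option κ => o.elim t fun y => f y t) P) =
        fun t => ∑ s ∈ P.support, P.coeff s * ∏ o ∈ s.support, (o.elim t fun y => f y t) ^ s o := by
      funext t
      rw [eval_eq]
    rw [h1]
    refine Finset.analyticAt_fun_sum _ fun s _ => analyticAt_const.mul ?_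
    refine Finset.analyticAt_fun_prod _ fun o _ => AnalyticAt.pow ?_ _
    cases o with
    | none => exact analyticAt_id
    | some y => exact han y t ht
  have h2 := hA.eqOn_zero_of_preconnected_of_eventuallyEq_zero hpc ht0 hP
  intro t ht
  exact h2 ht

/-- real and imaginary parts: independence of real functions over `ℝ` gives independence over `ℂ` -/
theorem ind_of_real {κ : Type} [Fintype κ] (f : κ → ℂ → ℂ) (fr : κ → ℝ → ℝ) (S : Set ℝ)
    (hf : ∀ y, ∀ t ∈ S, f y (t : ℂ) = (fr y t : ℂ))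
    (hind : ∀ P : MvPolynomial (Option κ) ℝ, (∀ t ∈ S, eval (fun o => o.elim t fun y => fr y t) P = 0) → P = 0)
    (P : MvPolynomial (Option κ) ℂ) (hP : ∀ t ∈ S, eval (fun o : Option κ => o.elim (t : ℂ) fun y => f y t) P = 0) :
    P = 0 := by
  classical
  obtain ⟨Q, R, hQR⟩ := Y124.exists_re_im P
  have hkey : ∀ t ∈ S, eval (fun o : Option κ => o.elim t fun y => fr y t) Q = 0 ∧
      eval (fun o : Option κ => o.elim t fun y => fr y t) R = 0 := by
    intro t ht
    have h2 := hP t ht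
    have h3 : (fun o : Option κ => o.elim (t : ℂ) fun y => f y t) =
        fun o => (((o.elim t fun y => fr y t : ℝ)) : ℂ) := by
      funext o
      cases o with
      | none => rfl
      | some y => exact hf y t ht
    rw [h3, hQR, map_add, map_mul, eval_C, eval_map, eval_map] at h2
    have h4 : ∀ S : MvPolynomial (Option κ) ℝ,
        eval₂ Complex.ofRealHom (fun o : Option κ => (((o.elim t fun y => fr y t : ℝ)) : ℂ)) S =
        ((eval (fun o : Option κ => o.elim t fun y => fr y t) S : ℝ) : ℂ) := by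
      intro S
      have := MvPolynomial.eval₂_comp_left Complex.ofRealHom (RingHom.id ℝ)
        (fun o : Option κ => (o.elim t fun y => fr y t : ℝ)) S
      rw [RingHom.comp_id] at this
      exact this.symm
    rw [h4, h4] at h2
    have h5 := congrArg Complex.re h2
    have h6 := congrArg Complex.im h2
    simp at h5 h6
    exact ⟨h5, h6⟩
  have hQ := hind Q fun t ht => (hkey t ht).1
  have hR := hind R fun t ht => (hkey t ht).2
  rw [hQR, hQ, hR, map_zero, mul_zero, add_zero]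

theorem inv_Gamma_analyticAt (z : ℂ) : AnalyticAt ℂ (fun s => (Complex.Gamma s)⁻¹) z :=
  Complex.differentiable_one_div_Gamma.analyticAt z

theorem Gamma_analyticAt {z : ℂ} (hz : ∀ k : ℕ, z ≠ -k) : AnalyticAt ℂ Complex.Gamma z := by
  have h1 := (inv_Gamma_analyticAt z).inv (inv_ne_zero (Complex.Gamma_ne_zero hz))
  have h2 : ((fun s => (Complex.Gamma s)⁻¹)⁻¹ : ℂ → ℂ) = Complex.Gamma := by
    funext s
    simp
  rwa [h2] at h1

/-- independence of functions from linear independence of the monomials over the polynomials -/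
theorem mv_of_exp {κ : Type} [Fintype κ] [DecidableEq κ] (u : κ → ℝ → ℝ) (S : Set ℝ)
    (h : ∀ d : ℕ, ∀ p : (κ → Fin (d + 1)) → Polynomial ℝ,
      (∀ t ∈ S, ∑ e, (p e).eval t * ∏ y, u y t ^ (e y : ℕ) = 0) → p = 0)
    (P : MvPolynomial (Option κ) ℝ) (hP : ∀ t ∈ S, eval (fun o : Option κ => o.elim t fun y => u y t) P = 0) :
    P = 0 := by
  classical
  by_contra hP0
  obtain ⟨s0, hs0⟩ := support_nonempty.2 hP0
  set d := P.totalDegree with hd
  have hle : ∀ s ∈ P.support, ∀ o, s o ≤ d := fun s hs o =>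
    (monomial_le_degreeOf o hs).trans (degreeOf_le_totalDegree P o)
  let ex : ℕ → (κ → Fin (d + 1)) → (Option κ →₀ ℕ) := fun i e =>
    Finsupp.equivFunOnFinite.symm fun o => o.elim i fun y => (e y : ℕ)
  let p : (κ → Fin (d + 1)) → Polynomial ℝ := fun e =>
    ∑ i ∈ Finset.range (d + 1), Polynomial.monomial i (P.coeff (ex i e))
  have hp := h d p (by
    intro t ht
    have h1 := hP t ht
    rw [eval_eq'] at h1
    rw [← h1]
    have h2 : ∀ e, (p e).eval t * ∏ y, u y t ^ (e y : ℕ) = ∑ i ∈ Finset.range (d + 1),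
        (fun s : Option κ →₀ ℕ => P.coeff s *
          ∏ o, (o.elim t fun y : κ => u y t) ^ s o) (ex i e) := by
      intro e
      simp only [p]
      rw [Polynomial.eval_finsetSum, Finset.sum_mul]
      refine Finset.sum_congr rfl fun i _ => ?_
      rw [Polynomial.eval_monomial, Fintype.prod_option]
      simp only [ex, Finsupp.equivFunOnFinite_symm_apply_apply, Option.elim_none, Option.elim_some]
      ring
    rw [Finset.sum_congr rfl fun e _ => h2 e]
    rw [Finset.sum_comm, ← Finset.sum_product']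
    rw [← Finset.sum_image (s := Finset.range (d + 1) ×ˢ (Finset.univ : Finset (κ → Fin (d + 1))))
      (g := fun x => ex x.1 x.2) (f := fun s : Option κ →₀ ℕ => P.coeff s *
          ∏ o, (o.elim t fun y : κ => u y t) ^ s o)]
    · refine (Finset.sum_subset ?_ ?_).symm
      · intro s hs
        rw [Finset.mem_image]
        refine ⟨(s none, fun y => ⟨s (some y), Nat.lt_succ_of_le (hle s hs _)⟩), ?_, ?_⟩
        · rw [Finset.mem_product]
          exact ⟨Finset.mem_range.2 (Nat.lt_succ_of_le (hle s hs _)), Finset.mem_univ _⟩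
        · ext o
          cases o <;> simp [ex]
      · intro s _ hs
        rw [notMem_support_iff.1 hs, zero_mul]
    · intro x _ y _ hxy
      have h3 := Finsupp.equivFunOnFinite.symm.injective hxy
      refine Prod.ext (congrFun h3 none) (funext fun j => Fin.ext (congrFun h3 (some j))))
  have h1 := congrFun hp (fun y => ⟨s0 (some y), Nat.lt_succ_of_le (hle s0 hs0 _)⟩)
  have h2 := congrArg (fun r => Polynomial.coeff r (s0 none)) h1
  simp only [p, Polynomial.finsetSum_coeff, Polynomial.coeff_monomial, Pi.zero_apply, Polynomial.coeff_zero] at h2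
  rw [Finset.sum_ite_eq' (Finset.range (d + 1)) (s0 none), if_pos (Finset.mem_range.2 (Nat.lt_succ_of_le (hle s0 hs0 _)))] at h2
  apply mem_support_iff.1 hs0
  rw [← h2]
  congr 1
  ext o
  cases o <;> simp [ex]

/-- the points of `F` in `L` which are quotients of integers all of whose conjugates have absolute value at most `T` -/
def Pts (F : Type) [Field F] [NumberField F] (ι : F →+* ℂ) (L : Set ℂ) (T : ℝ) : Set F :=
  {x | ι x ∈ L ∧ ∃ a b : 𝓞 F, b ≠ 0 ∧ (∀ φ : F →+* ℂ, ‖φ a‖ ≤ T ∧ ‖φ b‖ ≤ T) ∧ x = a / b}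

/-- exceptional tuples -/
def Exc {κ : Type} (n d : ℕ) {g : ℕ} (F : Type) [Field F] [NumberField F] (ι : F →+* ℂ) (ξ : Fin g → ℂ)
    (f : Fin n → κ → ℂ → ℂ) (L : Fin n → Set ℂ) (A B T : ℝ) : Set (Fin n → F) :=
  {t | (∀ j, t j ∈ Pts F ι (L j) T) ∧ ∃ P : MvPolynomial (Fin n × κ) ℂ, (∀ x, P.degreeOf x ≤ d) ∧
    (∀ s, ∃ c : Fin g → 𝓞 F, (∀ i (φ : F →+* ℂ), ‖φ (c i)‖ ≤ T ^ A) ∧ P.coeff s = ∑ i, ξ i * ι (c i)) ∧
    ∃ s₀, P.coeff s₀ ≠ 0 ∧ ‖MvPolynomial.aeval (fun x : Fin n × κ => f x.1 x.2 (ι (t x.1))) P‖ ≤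
      T ^ (-B) * ‖P.coeff s₀‖}

theorem Pts_eq (F : Type) [Field F] [NumberField F] (ι : F →+* ℂ) (L : Set ℂ) {T : ℝ} (hT : 0 ≤ T) :
    Pts F ι L T = {x : F | Y120.HtLe F T x ∧ ι x ∈ L} := by
  ext x
  constructor
  · rintro ⟨h1, a, b, hb, hab, hx⟩
    exact ⟨⟨a, b, hb, Y120.house_le F hT fun φ => (hab φ).1, Y120.house_le F hT fun φ => (hab φ).2, hx⟩, h1⟩
  · rintro ⟨⟨a, b, hb, ha, hb', hx⟩, h1⟩
    exact ⟨h1, a, b, hb, fun φ => ⟨(Y120.house_ge F _ φ).trans ha, (Y120.house_ge F _ φ).trans hb'⟩, hx⟩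

/-- The general theorem: `D j` is an arbitrary subset of the compact set `L j`. -/
theorem main {κ : Type} [Fintype κ] (m n g d : ℕ) (f : Fin n → κ → ℂ → ℂ)
    (L D : Fin n → Set ℂ) (S : Set ℂ) (hDS : ∀ j, D j ⊆ S) (hDL : ∀ j, D j ⊆ L j) (hL : ∀ j, IsCompact (L j))
    (han : ∀ j y, ∀ t ∈ L j, AnalyticAt ℂ (f j y) t) (hind : ∀ j, ∀ t ∈ L j, Y124.LocInd (f j) t)
    (A ε : ℝ) (hε : 0 < ε) :
    ∃ B C T₀ : ℝ, 0 ≤ C ∧ 2 ≤ T₀ ∧ ∀ (F : Type) [Field F] [NumberField F], Module.finrank ℚ F ≤ m →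
      ∀ (ι : F →+* ℂ) (ξ : Fin g → ℂ) (T : ℝ), T₀ ≤ T → (Exc n d F ι ξ f D A B T).Finite ∧
        ((Exc n d F ι ξ f D A B T).ncard : ℝ) ≤ C * T ^ ε * ((Pts F ι S T).ncard : ℝ) ^ (n - 1) := by
  classical
  have hone : ∀ (g : ℕ) (j : Fin n), Y124.OneV g (fun R T => {x | x ∈ D j ∧ Y120.Pt R T x})
      (fun t y => f j y t) := by
    intro g j h _ _ d A ε hε
    obtain ⟨B, C, T2, hC, hT2, H⟩ := Y124.oneV_of g (f j) (L j) (hL j) (han j) (hind j) h d A ε hε
    exact ⟨B, C, T2, hC, hT2, fun T hT R hR ξ Y hY => H T hT R hR ξ Y fun x hx =>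
      ⟨⟨hDL j (hY x hx).1.1, (hY x hx).1.2⟩, (hY x hx).2⟩⟩
  obtain ⟨B, C, T₀, hC, hT₀, H⟩ := Y124.nfW m n (α := ℂ) (κ := κ) (fun t => t) D S (fun j x hx => hDS j hx) 1
    (fun j s => by
      have h1 : {x : ℂ | x ∈ D j ∧ x = s} ⊆ {s} := fun x hx => hx.2
      refine ⟨(Set.finite_singleton s).subset h1, ?_⟩
      exact (Set.ncard_le_ncard h1 (Set.finite_singleton s)).trans (by rw [Set.ncard_singleton]))
    (fun j t y => f j y t) hone (Fin g) d A ε hε
  refine ⟨B, C, T₀, hC, hT₀, fun F _ _ hF ι ξ T hT => ?_⟩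
  have hT0 : 0 ≤ T := by linarith
  rw [Pts_eq F ι S hT0]
  refine H F hF ι ξ T hT _ fun t ht => ?_
  obtain ⟨h1, P, hPd, hPc, s₀, hs₀, hs⟩ := ht
  refine ⟨fun j => ι (t j), fun j => ?_, ?_⟩
  · have h2 := h1 j
    rw [Pts_eq F ι (D j) hT0] at h2
    exact ⟨h2.2, rfl, h2.1⟩
  · exact Y124.relK_of_poly' F ι ξ (fun j t y => f j y t) (fun j => ι (t j)) _ _ P hPd hPc s₀ hs₀ hs

/-- The general theorem inside arbitrary products of finite sets of points. -/
theorem mainX {κ : Type} [Fintype κ] (m n g d : ℕ) (f : Fin n → κ → ℂ → ℂ)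
    (L : Fin n → Set ℂ) (hL : ∀ j, IsCompact (L j))
    (han : ∀ j y, ∀ t ∈ L j, AnalyticAt ℂ (f j y) t) (hind : ∀ j, ∀ t ∈ L j, Y124.LocInd (f j) t)
    (A ε : ℝ) (hε : 0 < ε) :
    ∃ B C T₀ : ℝ, 0 ≤ C ∧ 2 ≤ T₀ ∧ ∀ (F : Type) [Field F] [NumberField F], Module.finrank ℚ F ≤ m →
      ∀ (ι : F →+* ℂ) (ξ : Fin g → ℂ) (T : ℝ), T₀ ≤ T → ∀ X : Fin n → Finset F,
        (∀ j, ∀ x ∈ X j, x ∈ Pts F ι (L j) T) →
        (({t | t ∈ Exc n d F ι ξ f L A B T ∧ ∀ j, t j ∈ X j}.ncard : ℕ) : ℝ) ≤ C * T ^ ε * Y124.MgR X := by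
  classical
  have hg := fun g' : ℕ => Y124.multiR g' n (fun j R T => {t | t ∈ L j ∧ Y120.Pt R T t}) (fun j t y => f j y t)
    (fun j => Y124.oneV_of g' (f j) (L j) (hL j) (han j) (hind j)) (Fin g) d A ε hε
  choose B C T2 hB hC hT2 H using hg
  refine ⟨∑ g ∈ range m, B g, ∑ g ∈ range m, C g, 2 + ∑ g ∈ range m, T2 g, ?_, ?_, ?_⟩
  · exact Finset.sum_nonneg fun g _ => (hC g).le
  · have : 0 ≤ ∑ g ∈ range m, T2 g := Finset.sum_nonneg fun g _ => by linarith [hT2 g]
    linarith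
  intro K _ _ hm io ξ T hT X hX
  set g' := Y120.gK K with hg'
  have hgm : g' ∈ range m := Finset.mem_range.2 (Y124.gK_lt K hm)
  have hTT : T2 g' ≤ T := by
    have h1 := Finset.single_le_sum (f := T2) (fun g _ => by linarith [hT2 g]) hgm
    linarith
  have hBB : B g' ≤ ∑ g ∈ range m, B g := Finset.single_le_sum (f := B) (fun g _ => hB g) hgm
  have hCC : C g' ≤ ∑ g ∈ range m, C g := Finset.single_le_sum (f := C) (fun g _ => (hC g).le) hgm
  have hT1 : 1 ≤ T := by linarith [hT2 g']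
  set E : Set (Fin n → K) := {t | t ∈ Exc n d K io ξ f L A (∑ g ∈ range m, B g) T ∧ ∀ j, t j ∈ X j} with hE
  have hEsub : E ⊆ (Fintype.piFinset X : Finset (Fin n → K)) := by
    intro t ht
    rw [Finset.mem_coe, Fintype.mem_piFinset]
    exact ht.2
  have hEf : E.Finite := (Finset.finite_toSet _).subset hEsub
  set Y : Finset (Fin n → ℂ) := hEf.toFinset.image fun t j => io (t j) with hY
  have hYc : Y.card = E.ncard := by
    rw [hY, Finset.card_image_of_injective, Set.ncard_eq_toFinset_card _ hEf]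
    intro t t' htt
    funext j
    exact io.injective (congrFun htt j)
  have h1 := H g' T hTT (Y120.RK K io) (Y120.RK_norm K io) ξ (fun j => (X j).image io) (by
    intro j x hx
    obtain ⟨y, hy, rfl⟩ := Finset.mem_image.1 hx
    have hy' := hX j y hy
    rw [Pts_eq K io (L j) (by linarith)] at hy'
    exact ⟨hy'.2, Y120.Pt_of_HtLe K io hy'.1⟩) Y (by
    intro y hy
    obtain ⟨t, ht, rfl⟩ := Finset.mem_image.1 hy
    rw [Fintype.mem_piFinset]
    intro j
    exact Finset.mem_image_of_mem _ ((hEf.mem_toFinset.1 ht).2 j)) (by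
    intro y hy
    obtain ⟨t, ht, rfl⟩ := Finset.mem_image.1 hy
    refine Y124.RelR_mono (Real.rpow_le_rpow_of_exponent_le hT1 (neg_le_neg hBB)) ?_
    refine Y124.RelR_of_RelK K io ξ _ _ _ ?_
    obtain ⟨⟨h1, P, hPd, hPc, s₀, hs₀, hs⟩, h2⟩ := hEf.mem_toFinset.1 ht
    exact Y124.relK_of_poly' K io ξ (fun j t y => f j y t) (fun j => io (t j)) _ _ P hPd hPc s₀ hs₀ hs)
  have h2 : Y124.MgR (fun j => (X j).image io) = Y124.MgR X := by
    unfold Y124.MgR
    refine Finset.sum_congr rfl fun j _ => Finset.prod_congr rfl fun i _ => ?_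
    rw [Finset.card_image_of_injective _ io.injective]
  rw [h2, hYc] at h1
  refine h1.trans ?_
  have hTε : 0 ≤ T ^ ε := (Real.rpow_pos_of_pos (by linarith) _).le
  have hM : 0 ≤ Y124.MgR X :=
    Finset.sum_nonneg fun j _ => Finset.prod_nonneg fun i _ => by split_ifs <;> positivity
  exact mul_le_mul_of_nonneg_right (mul_le_mul_of_nonneg_right hCC hTε) hM

/-- The general theorem inside powers of a finite set of points. -/
theorem mainS {κ : Type} [Fintype κ] (m n g d : ℕ) (f : κ → ℂ → ℂ) (L : Set ℂ) (hL : IsCompact L)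
    (han : ∀ y, ∀ t ∈ L, AnalyticAt ℂ (f y) t) (hind : ∀ t ∈ L, Y124.LocInd f t)
    (A ε : ℝ) (hε : 0 < ε) :
    ∃ B C T₀ : ℝ, 0 ≤ C ∧ 2 ≤ T₀ ∧ ∀ (F : Type) [Field F] [NumberField F], Module.finrank ℚ F ≤ m →
      ∀ (ι : F →+* ℂ) (ξ : Fin g → ℂ) (T : ℝ), T₀ ≤ T → ∀ X : Finset F, (∀ x ∈ X, x ∈ Pts F ι L T) →
        (({t | t ∈ Exc n d F ι ξ (fun _ => f) (fun _ => L) A B T ∧ ∀ j, t j ∈ X}.ncard : ℕ) : ℝ) ≤
          C * T ^ ε * (X.card : ℝ) ^ (n - 1) := by
  obtain ⟨B, C, T₀, hC, hT₀, H⟩ := mainX m n g d (fun _ => f) (fun _ => L) (fun _ => hL) (fun _ => han)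
    (fun _ => hind) A ε hε
  refine ⟨B, C * n, T₀, by positivity, hT₀, fun F _ _ hF ι ξ T hT X hX => ?_⟩
  refine (H F hF ι ξ T hT (fun _ => X) fun _ => hX).trans ?_
  rw [Y124.MgR_const]
  apply le_of_eq
  ring

/-- The general theorem, all functions analytic and independent at all points of one compact set. -/
theorem main' {κ : Type} [Fintype κ] (m n g d : ℕ) (f : κ → ℂ → ℂ) (L : Set ℂ) (hL : IsCompact L)
    (han : ∀ y, ∀ t ∈ L, AnalyticAt ℂ (f y) t) (hind : ∀ t ∈ L, Y124.LocInd f t)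
    (A ε : ℝ) (hε : 0 < ε) :
    ∃ B C T₀ : ℝ, ∀ (F : Type) [Field F] [NumberField F], Module.finrank ℚ F ≤ m → ∀ (ι : F →+* ℂ) (ξ : Fin g → ℂ)
      (T : ℝ), T₀ ≤ T → (Exc n d F ι ξ (fun _ => f) (fun _ => L) A B T).Finite ∧
        ((Exc n d F ι ξ (fun _ => f) (fun _ => L) A B T).ncard : ℝ) ≤
          C * T ^ ε * ((Pts F ι L T).ncard : ℝ) ^ (n - 1) := by
  obtain ⟨B, C, T₀, -, -, H⟩ := main m n g d (fun _ => f) (fun _ => L) (fun _ => L) L (fun _ => subset_rfl)
    (fun _ => subset_rfl) (fun _ => hL) (fun _ => han) (fun _ => hind) A ε hε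
  exact ⟨B, C, T₀, H⟩

end Pool.Agent.Y771.RP
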